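import Pool.Agent.N465.L2.Stm
import Pool.Agent.Helper27.E7.Low3

/-!
# LOW: the lower bound (Giraud's construction, blown up) (helper2)
-/

set_option autoImplicit false
set_option linter.unusedSectionVars false

open Finset

namespace Pool.Agent.N2.L2

open Pool.Agent.N465.L2 Pool.Agent.Helper27.E7.Low

section Blow

variable {V : Type} [Fintype V] [DecidableEq V] {n : ℕ}

/-- the blow-up of `H` along `φ` -/
def bl (H : Finset (Finset V)) (φ : Fin n → V) : Finset (Finset (Fin n)) :=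
  ((univ : Finset (Fin n)).powersetCard 4).filter fun s => s.image φ ∈ H

theorem mem_bl {H : Finset (Finset V)} {φ : Fin n → V} {s : Finset (Fin n)} :
    s ∈ bl H φ ↔ s.card = 4 ∧ s.image φ ∈ H := by
  rw [bl, mem_filter, mem_powersetCard]
  exact ⟨fun h => ⟨h.1.2, h.2⟩, fun h => ⟨⟨subset_univ _, h.1⟩, h.2⟩⟩

theorem bl_free {H : Finset (Finset V)} (hH : ∀ e ∈ H, e.card = 4)
    (hF : ∀ S : Finset V, S.card = 5 → ∃ s ⊆ S, s.card = 4 ∧ s ∉ H) (φ : Fin n → V) :
    K54Free (bl H φ) := by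
  intro S hS
  by_cases hi : (S.image φ).card = 5
  · obtain ⟨s', h1, h2, h3⟩ := hF _ hi
    have hinj : Set.InjOn φ S := by
      rw [← card_image_iff, hi, hS]
    have him : (S.filter fun x => φ x ∈ s').image φ = s' := by
      ext v
      rw [mem_image]
      constructor
      · rintro ⟨x, hx, rfl⟩
        exact (mem_filter.1 hx).2
      · intro hv
        obtain ⟨x, hx, rfl⟩ := mem_image.1 (h1 hv)
        exact ⟨x, mem_filter.2 ⟨hx, hv⟩, rfl⟩
    refine ⟨S.filter fun x => φ x ∈ s', filter_subset _ _, ?_, ?_⟩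
    · rw [← card_image_of_injOn (f := φ) (hinj.mono (by
        intro x hx
        exact (mem_filter.1 (mem_coe.1 hx)).1)), him, h2]
    · intro h
      rw [mem_bl, him] at h
      exact h3 h.2
  · have hni : ¬ Set.InjOn φ S := by
      intro h
      exact hi (by rw [card_image_of_injOn h, hS])
    obtain ⟨x, hx, y, hy, hxy, hne⟩ : ∃ x ∈ S, ∃ y ∈ S, φ x = φ y ∧ x ≠ y := by
      unfold Set.InjOn at hni
      push Not at hni
      obtain ⟨x, hx, y, hy, h1, h2⟩ := hni
      exact ⟨x, hx, y, hy, h1, h2⟩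
    obtain ⟨z, hz, hz2⟩ : ∃ z ∈ S, z ∉ ({x, y} : Finset (Fin n)) := by
      by_contra hc
      push Not at hc
      have h1 : S.card ≤ ({x, y} : Finset (Fin n)).card := card_le_card fun z hz => hc z hz
      have h2 := card_le_two (a := x) (b := y)
      omega
    rw [mem_insert, mem_singleton, not_or] at hz2
    refine ⟨S.erase z, erase_subset _ _, by rw [card_erase_of_mem hz, hS], ?_⟩
    intro h
    rw [mem_bl] at h
    have h4 := hH _ h.2
    have h5 : Set.InjOn φ (S.erase z) := by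
      rw [← card_image_iff, h4, h.1]
    exact hne (h5 (mem_coe.2 (mem_erase.2 ⟨fun e => hz2.1 e.symm, hx⟩))
      (mem_coe.2 (mem_erase.2 ⟨fun e => hz2.2 e.symm, hy⟩)) hxy)

theorem codeg_eq' {V : Type} [Fintype V] [DecidableEq V] {H : Finset (Finset V)}
    (hH : ∀ e ∈ H, e.card = 4) {T : Finset V} (hT : T.card = 3) :
    (H.filter (fun e => T ⊆ e)).card = (univ.filter (fun d => insert d T ∈ H)).card :=
  Pool.Agent.Helper27.E7.Low.codeg_eq hH hT

/-- the lifts of a triple -/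
def lf (φ : Fin n → V) (T : Finset V) : Finset (Finset (Fin n)) :=
  ((univ : Finset (Fin n)).powersetCard 3).filter fun P => P.image φ = T

theorem card_lf {φ : Fin n → V} {q : ℕ} (hq : ∀ v, q ≤ (univ.filter fun x => φ x = v).card)
    {T : Finset V} (hT : T.card = 3) : q ^ 3 ≤ (lf φ T).card := by
  classical
  obtain ⟨a, b, c, hab, hac, hbc, rfl⟩ := card_eq_three.1 hT
  set Fa := univ.filter fun x => φ x = a
  set Fb := univ.filter fun x => φ x = b
  set Fc := univ.filter fun x => φ x = c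
  have h1 : q ^ 3 ≤ (Fa ×ˢ Fb ×ˢ Fc).card := by
    rw [card_product, card_product]
    calc q ^ 3 = q * (q * q) := by ring
      _ ≤ _ := Nat.mul_le_mul (hq a) (Nat.mul_le_mul (hq b) (hq c))
  refine h1.trans ?_
  refine card_le_card_of_injOn (fun t => {t.1, t.2.1, t.2.2}) ?_ ?_
  · rintro ⟨x, y, z⟩ ht
    simp only [Fa, Fb, Fc, coe_product, Set.mem_prod, mem_coe, mem_filter, mem_univ, true_and] at ht
    obtain ⟨hx, hy, hz⟩ := ht
    rw [mem_coe, lf, mem_filter, mem_powersetCard]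
    refine ⟨⟨subset_univ _, ?_⟩, ?_⟩
    · rw [card_eq_three]
      refine ⟨x, y, z, ?_, ?_, ?_, rfl⟩
      · rintro rfl; exact hab (hx.symm.trans hy)
      · rintro rfl; exact hac (hx.symm.trans hz)
      · rintro rfl; exact hbc (hy.symm.trans hz)
    · simp [image_insert, hx, hy, hz]
  · rintro ⟨x, y, z⟩ ht ⟨x', y', z'⟩ ht' h
    simp only [Fa, Fb, Fc, coe_product, Set.mem_prod, mem_coe, mem_filter, mem_univ, true_and] at ht ht'
    obtain ⟨hx, hy, hz⟩ := ht
    obtain ⟨hx', hy', hz'⟩ := ht'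
    simp only at h
    have h1 : x ∈ ({x', y', z'} : Finset (Fin n)) := by rw [← h]; simp
    have h2 : y ∈ ({x', y', z'} : Finset (Fin n)) := by rw [← h]; simp
    have h3 : z ∈ ({x', y', z'} : Finset (Fin n)) := by rw [← h]; simp
    simp only [mem_insert, mem_singleton] at h1 h2 h3
    have e1 : x = x' := by
      rcases h1 with h1 | h1 | h1
      · exact h1
      · exact absurd (by rw [← hx, h1, hy']) hab
      · exact absurd (by rw [← hx, h1, hz']) hac
    have e2 : y = y' := by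
      rcases h2 with h1 | h1 | h1
      · exact absurd (by rw [← hx', ← h1, hy]) hab
      · exact h1
      · exact absurd (by rw [← hy, h1, hz']) hbc
    have e3 : z = z' := by
      rcases h3 with h1 | h1 | h1
      · exact absurd (by rw [← hx', ← h1, hz]) hac
      · exact absurd (by rw [← hy', ← h1, hz]) hbc
      · exact h1
    rw [e1, e2, e3]

theorem codeg_bl {H : Finset (Finset V)} (hH : ∀ e ∈ H, e.card = 4) {φ : Fin n → V} {q : ℕ}
    (hq : ∀ v, q ≤ (univ.filter fun x => φ x = v).card) {T : Finset V} (hT : T.card = 3)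
    {P : Finset (Fin n)} (hP : P ∈ lf φ T) :
    q * (H.filter (fun e => T ⊆ e)).card ≤ codeg (bl H φ) P := by
  rw [lf, mem_filter, mem_powersetCard] at hP
  obtain ⟨⟨-, hP3⟩, hPi⟩ := hP
  rw [codeg, codeg_eq' (fun e he => (mem_bl.1 he).1) hP3, codeg_eq' hH hT]
  set A := univ.filter (fun d => insert d T ∈ H)
  have h1 : (univ.filter fun x => φ x ∈ A) ⊆ univ.filter (fun d => insert d P ∈ bl H φ) := by
    intro x hx
    rw [mem_filter] at hx ⊢
    refine ⟨mem_univ _, ?_⟩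
    have h2 : insert (φ x) T ∈ H := (mem_filter.1 hx.2).2
    rw [mem_bl, image_insert, hPi]
    refine ⟨?_, h2⟩
    rw [card_insert_of_notMem, hP3]
    intro h3
    have h4 : φ x ∈ T := by rw [← hPi]; exact mem_image_of_mem _ h3
    have h5 := hH _ h2
    rw [insert_eq_of_mem h4, hT] at h5
    omega
  refine le_trans ?_ (card_le_card h1)
  rw [card_eq_sum_card_fiberwise (f := φ) (t := A) (by
    intro x hx
    exact (mem_filter.1 (mem_coe.1 hx)).2)]
  rw [mul_comm, ← smul_eq_mul, ← sum_const]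
  refine sum_le_sum fun v hv => ?_
  refine (hq v).trans (card_le_card ?_)
  intro x hx
  rw [mem_filter] at hx ⊢
  refine ⟨?_, hx.2⟩
  rw [mem_filter]
  exact ⟨mem_univ _, by rw [hx.2]; exact hv⟩

theorem sum_bl {H : Finset (Finset V)} (hH : ∀ e ∈ H, e.card = 4) {φ : Fin n → V} {q : ℕ}
    (hq : ∀ v, q ≤ (univ.filter fun x => φ x = v).card) :
    q ^ 5 * ∑ T ∈ (univ : Finset V).powersetCard 3, (H.filter (fun e => T ⊆ e)).card ^ 2 ≤
      ∑ P ∈ (univ : Finset (Fin n)).powersetCard 3, codeg (bl H φ) P ^ 2 := by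
  classical
  calc q ^ 5 * ∑ T ∈ (univ : Finset V).powersetCard 3, (H.filter (fun e => T ⊆ e)).card ^ 2
      = ∑ T ∈ (univ : Finset V).powersetCard 3, q ^ 3 * (q * (H.filter (fun e => T ⊆ e)).card) ^ 2 := by
        rw [mul_sum]
        exact sum_congr rfl fun T _ => by ring
    _ ≤ ∑ T ∈ (univ : Finset V).powersetCard 3, ∑ P ∈ lf φ T, codeg (bl H φ) P ^ 2 := by
        refine sum_le_sum fun T hT => ?_
        rw [mem_powersetCard] at hT
        calc q ^ 3 * (q * (H.filter (fun e => T ⊆ e)).card) ^ 2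
            ≤ (lf φ T).card * (q * (H.filter (fun e => T ⊆ e)).card) ^ 2 :=
              Nat.mul_le_mul_right _ (card_lf hq hT.2)
          _ = ∑ P ∈ lf φ T, (q * (H.filter (fun e => T ⊆ e)).card) ^ 2 := by
              rw [sum_const, smul_eq_mul]
          _ ≤ _ := sum_le_sum fun P hP => Nat.pow_le_pow_left (codeg_bl hH hq hT.2 hP) 2
    _ = ∑ P ∈ ((univ : Finset V).powersetCard 3).biUnion (lf φ), codeg (bl H φ) P ^ 2 := by
        rw [sum_biUnion]
        intro T _ T' _ hne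
        rw [Function.onFun, disjoint_left]
        intro P hP hP'
        rw [lf, mem_filter] at hP hP'
        exact hne (hP.2.symm.trans hP'.2)
    _ ≤ _ := by
        refine sum_le_sum_of_subset ?_
        intro P hP
        rw [mem_biUnion] at hP
        obtain ⟨T, -, hP⟩ := hP
        exact (mem_filter.1 hP).1

end Blow

theorem exists_phi {V : Type} [Fintype V] [DecidableEq V] (hV : 0 < Fintype.card V) (n : ℕ) :
    ∃ φ : Fin n → V, ∀ v, n / Fintype.card V ≤ (univ.filter fun x => φ x = v).card := by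
  set N := Fintype.card V with hN
  let e := Fintype.equivFin V
  refine ⟨fun i => e.symm ⟨i % N, Nat.mod_lt _ hV⟩, fun v => ?_⟩
  have hb : ∀ j : Fin (n / N), j.1 * N + (e v).1 < n := by
    intro j
    have h1 : (j.1 + 1) * N ≤ n / N * N := Nat.mul_le_mul_right _ j.2
    have h2 : n / N * N ≤ n := Nat.div_mul_le_self n N
    have h3 := (e v).2
    have h4 : (j.1 + 1) * N = j.1 * N + N := by ring
    omega
  calc n / N = (univ : Finset (Fin (n / N))).card := by simp
    _ ≤ _ := by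
      refine card_le_card_of_injOn (fun j => (⟨j.1 * N + (e v).1, hb j⟩ : Fin n)) ?_ ?_
      · intro j _
        rw [mem_coe, mem_filter]
        refine ⟨mem_univ _, ?_⟩
        have h1 : (⟨(j.1 * N + (e v).1) % N, Nat.mod_lt _ hV⟩ : Fin N) = e v := by
          apply Fin.ext
          show (j.1 * N + (e v).1) % N = (e v).1
          rw [Nat.add_comm, Nat.add_mul_mod_self_right, Nat.mod_eq_of_lt (e v).2]
        show e.symm ⟨(j.1 * N + (e v).1) % N, _⟩ = v
        rw [h1, Equiv.symm_apply_apply]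
      · intro j _ j' _ h
        have h1 : j.1 * N + (e v).1 = j'.1 * N + (e v).1 := congrArg Fin.val h
        have h2 : j.1 * N = j'.1 * N := by omega
        exact Fin.ext (Nat.eq_of_mul_eq_mul_right hV h2)

theorem low_num (k : ℕ) : 31 / 384 * ((2 : ℝ) ^ (k + 1)) ^ 5 - ((2 : ℝ) ^ (k + 1)) ^ 4
    ≤ ∑ T ∈ (univ : Finset (Vk k)).powersetCard 3, (((G k).filter (fun e => T ⊆ e)).card : ℝ) ^ 2 := by
  have h := sumC2 (k := k)
  have h' : (24 : ℝ) * ∑ T ∈ (univ : Finset (Vk k)).powersetCard 3,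
      (((G k).filter (fun e => T ⊆ e)).card : ℝ) ^ 2
      = 8 * ((2 : ℝ) ^ k) ^ 3 * ((2 : ℝ) ^ k - 1) * ((2 : ℝ) ^ k - 2)
        + 6 * ((2 : ℝ) ^ k) ^ 2 * ((2 : ℝ) ^ k - 1) * (3 * (2 : ℝ) ^ k - 4) ^ 2 := by
    unfold Pool.Agent.Helper27.E7.codeg at h
    exact_mod_cast h
  have hn2 : (2 : ℝ) ^ (k + 1) = 2 * (2 : ℝ) ^ k := by rw [pow_succ]; ring
  have h1 : (1 : ℝ) ≤ 2 ^ k := one_le_pow₀ (by norm_num)
  rw [hn2]
  generalize (2 : ℝ) ^ k = N at h' h1 ⊢
  have e : 31 / 384 * (2 * N) ^ 5 - (2 * N) ^ 4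
      = (8 * N ^ 3 * (N - 1) * (N - 2) + 6 * N ^ 2 * (N - 1) * (3 * N - 4) ^ 2) / 24
        - (162 * N ^ 4 + 256 * N ^ 3 - 96 * N ^ 2) / 24 := by ring
  rw [e, ← h']
  have h2 : 0 ≤ 162 * N ^ 4 + 256 * N ^ 3 - 96 * N ^ 2 := by
    have h3 : 0 ≤ N ^ 2 * (162 * N ^ 2 + 256 * N - 96) := by
      apply mul_nonneg (by positivity)
      nlinarith
    linarith
  linarith

theorem real_est {ε N n : ℝ} (hN1 : 12.5 ≤ N) (hN : 1 / N ≤ ε / 2) (hn : N ≤ n)
    (hn2 : 5 * N ≤ ε / 2 * n) :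
    (31 / 384 - ε) * n ^ 5 ≤ ((n - N) / N) ^ 5 * (31 / 384 * N ^ 5 - N ^ 4) := by
  have hN0 : 0 < N := by linarith
  have hn0 : 0 < n := by linarith
  have e1 : ((n - N) / N) ^ 5 * (31 / 384 * N ^ 5 - N ^ 4) = (n - N) ^ 5 * (31 / 384 - 1 / N) := by
    field_simp
  have hc : 0 ≤ 31 / 384 - 1 / N := by
    have : 1 / N ≤ 1 / 12.5 := one_div_le_one_div_of_le (by norm_num) hN1
    norm_num at this ⊢
    linarith
  have h1 : n ^ 5 - 5 * N * n ^ 4 ≤ (n - N) ^ 5 := by
    have hx : -2 ≤ -(N / n) := by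
      have : N / n ≤ 1 := (div_le_one hn0).2 hn
      linarith
    have hb := one_add_mul_le_pow hx 5
    have h3 : n - N = n * (1 + -(N / n)) := by field_simp; ring
    rw [h3, mul_pow]
    have h4 : n ^ 5 * (1 + (5 : ℕ) * -(N / n)) ≤ n ^ 5 * (1 + -(N / n)) ^ 5 :=
      mul_le_mul_of_nonneg_left hb (by positivity)
    have h5 : n ^ 5 * (1 + (5 : ℕ) * -(N / n)) = n ^ 5 - 5 * N * n ^ 4 := by
      push_cast
      field_simp
      ring
    linarith
  rw [e1]
  have h2 : (n ^ 5 - 5 * N * n ^ 4) * (31 / 384 - 1 / N) ≤ (n - N) ^ 5 * (31 / 384 - 1 / N) :=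
    mul_le_mul_of_nonneg_right h1 hc
  refine le_trans ?_ h2
  have h5 : 0 ≤ n ^ 4 := by positivity
  have h6 : (31 / 384 - 1 / N) ≤ 1 := by
    have : 0 < 1 / N := by positivity
    linarith
  have h7 : 5 * N * n ^ 4 * (31 / 384 - 1 / N) ≤ 5 * N * n ^ 4 * 1 :=
    mul_le_mul_of_nonneg_left h6 (by positivity)
  have h8 : 5 * N * n ^ 4 ≤ ε / 2 * n * n ^ 4 := mul_le_mul_of_nonneg_right hn2 h5
  have h9 : 1 / N * n ^ 5 ≤ ε / 2 * n ^ 5 := mul_le_mul_of_nonneg_right hN (by positivity)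
  have h10 : ε / 2 * n * n ^ 4 = ε / 2 * n ^ 5 := by ring
  have h11 : (n ^ 5 - 5 * N * n ^ 4) * (31 / 384 - 1 / N) =
      31 / 384 * n ^ 5 - 1 / N * n ^ 5 - 5 * N * n ^ 4 * (31 / 384 - 1 / N) := by ring
  rw [h11]
  linarith

/-- LOW -/
theorem goal_LOW : Goal_LOW := by
  intro ε hε
  obtain ⟨k, hk⟩ : ∃ k : ℕ, max 12.5 (2 / ε) ≤ (2 : ℝ) ^ (k + 1) := by
    obtain ⟨k, hk⟩ := pow_unbounded_of_one_lt (max 12.5 (2 / ε)) (one_lt_two (α := ℝ))
    exact ⟨k, hk.le.trans (pow_le_pow_right₀ one_le_two (Nat.le_succ k))⟩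
  set N0 : ℕ := 2 ^ (k + 1) with hN0
  have hN0' : ((N0 : ℕ) : ℝ) = 2 ^ (k + 1) := by rw [hN0]; push_cast; rfl
  rw [← hN0', max_le_iff] at hk
  obtain ⟨hk1, hk2⟩ := hk
  have hNpos : (0 : ℝ) < N0 := by linarith
  obtain ⟨N, hN⟩ := exists_nat_ge (max (N0 : ℝ) (10 * N0 / ε))
  rw [max_le_iff] at hN
  have hcard : Fintype.card (Vk k) = N0 := by
    rw [Fintype.card_prod, Fintype.card_bool, card_W, hN0, pow_succ]
    ring
  refine ⟨N, fun n hn => ?_⟩
  have hn' : (N : ℝ) ≤ n := by exact_mod_cast hn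
  obtain ⟨φ, hφ⟩ := exists_phi (V := Vk k) (by rw [hcard, hN0]; positivity) n
  have hE := even_G k
  refine ⟨bl (G k) φ, fun s hs => (mem_bl.1 hs).1, bl_free hE.1 ?_ φ, ?_⟩
  · intro S hS
    by_contra hc
    push Not at hc
    have h1 := hE.2 S hS
    have h2 : (G k).filter (fun e => e ⊆ S) = S.powersetCard 4 := by
      ext e
      rw [mem_filter, mem_powersetCard]
      exact ⟨fun h => ⟨h.2, hE.1 e h.1⟩, fun h => ⟨hc e h.1 h.2, h.1⟩⟩
    rw [Pool.Agent.Helper27.E7.inside, h2, card_powersetCard, hS] at h1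
    revert h1
    decide
  · have h1 := sum_bl hE.1 hφ
    rw [hcard] at h1
    have h2 : ((n / N0 : ℕ) : ℝ) ^ 5 * ∑ T ∈ (univ : Finset (Vk k)).powersetCard 3,
        (((G k).filter (fun e => T ⊆ e)).card : ℝ) ^ 2 ≤
        ∑ P ∈ (univ : Finset (Fin n)).powersetCard 3, (codeg (bl (G k) φ) P : ℝ) ^ 2 := by
      exact_mod_cast h1
    refine le_trans ?_ h2
    have h3 := low_num k
    rw [← hN0'] at h3
    have hq : ((n : ℝ) - N0) / N0 ≤ ((n / N0 : ℕ) : ℝ) := by
      rw [div_le_iff₀ hNpos]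
      have h4 : n < (n / N0 + 1) * N0 := by
        have h5 := Nat.div_add_mod n N0
        have h6 : n % N0 < N0 := Nat.mod_lt _ (by rw [hN0]; positivity)
        have h7 : (n / N0 + 1) * N0 = N0 * (n / N0) + N0 := by ring
        omega
      have h8 : (n : ℝ) < ((n / N0 : ℕ) + 1) * N0 := by exact_mod_cast h4
      linarith
    have hge : (N0 : ℝ) ≤ n := hN.1.trans hn'
    have hq0 : 0 ≤ ((n : ℝ) - N0) / N0 := div_nonneg (by linarith) hNpos.le
    have hS0 : (0 : ℝ) ≤ 31 / 384 * (N0 : ℝ) ^ 5 - (N0 : ℝ) ^ 4 := by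
      have : (0 : ℝ) ≤ (N0 : ℝ) ^ 4 * (31 / 384 * N0 - 1) := by
        apply mul_nonneg (by positivity)
        norm_num at hk1 ⊢
        linarith
      linarith
    have hr := real_est (ε := ε) (N := N0) (n := n) hk1 (by
      rw [div_le_iff₀ hNpos]
      rw [div_le_iff₀ hε] at hk2
      linarith) hge (by
      have := hN.2.trans hn'
      rw [div_le_iff₀ hε] at this
      linarith)
    calc (31 / 384 - ε) * (n : ℝ) ^ 5 ≤ (((n : ℝ) - N0) / N0) ^ 5 * (31 / 384 * (N0 : ℝ) ^ 5 - (N0 : ℝ) ^ 4) := hr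
      _ ≤ ((n / N0 : ℕ) : ℝ) ^ 5 * (31 / 384 * (N0 : ℝ) ^ 5 - (N0 : ℝ) ^ 4) :=
          mul_le_mul_of_nonneg_right (pow_le_pow_left₀ hq0 hq 5) hS0
      _ ≤ _ := mul_le_mul_of_nonneg_left h3 (by positivity)

end Pool.Agent.N2.L2
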